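import Pool.Agent.H34.GZZ.Targets
import Pool.Agent.H55.GZZ.CIR

/-!
Row CIZ of the board gzz: removal of finitely many linear factors.
-/

set_option autoImplicit false

namespace Pool.Agent.H55.GZZ

theorem pf_CIZ : Pool.Agent.H34.GZZ.T_CIZ := by
  intro n0 e he
  choose C hC h using fun n : ℕ => pf_CIR n e he
  refine ⟨∑ n ∈ Finset.range (n0 + 1), C n,
    Finset.sum_pos (fun n _ => hC n) ⟨0, by simp⟩, ?_⟩
  intro n L z s0 U hn hL hU
  have hU0 : 0 ≤ U := by
    refine le_trans ?_ (hU s0 (by simpa using he.le))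
    exact mul_nonneg (norm_nonneg _) (Finset.prod_nonneg fun i _ => le_min zero_le_one
      (norm_nonneg _))
  refine (h n L z s0 U hL hU).trans (mul_le_mul_of_nonneg_right ?_ hU0)
  exact Finset.single_le_sum (f := C) (fun k _ => (hC k).le)
    (Finset.mem_range.2 (by omega))

end Pool.Agent.H55.GZZ
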